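import Mathlib

namespace Pool.Agent.Results.MP_c9219e_nt.OddGraham

/-- An `m`-product sequence: a finite non-decreasing sequence of natural numbers whose product is
an `m`-th power and in which each number occurs at most `m - 1` times. -/
def IsProductSequence (m : ℕ) (l : List ℕ) : Prop :=
  l.Pairwise (· ≤ ·) ∧ (∃ R : ℕ, l.prod = R ^ m) ∧ ∀ x : ℕ, l.count x ≤ m - 1

/-- The last terms of the `m`-product sequences whose first term is `n`. -/
def lastTerms (m n : ℕ) : Set ℕ :=
  {s : ℕ | ∃ l : List ℕ, IsProductSequence m l ∧ l.head? = some n ∧ l.getLast? = some s}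

/-- The generalised Graham function `g_m(n)`. -/
noncomputable def g (m n : ℕ) : ℕ := sInf (lastTerms m n)

lemma one_mem {m : ℕ} (hm : 3 ≤ m) : 1 ∈ lastTerms m 1 := by
  refine ⟨[1], ⟨by simp, ⟨1, by simp⟩, ?_⟩, rfl, rfl⟩
  intro x
  have : List.count x [1] ≤ 1 := by
    calc List.count x [1] ≤ [1].length := List.count_le_length
    _ = 1 := rfl
  omega

lemma count_replicate_le (x k a : ℕ) : List.count x (List.replicate k a) ≤ k := by
  calc List.count x (List.replicate k a) ≤ (List.replicate k a).length := List.count_le_length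
  _ = k := by simp

/-- the four term identity: `ab · (a+1)(b+1) = (a+1)b · a(b+1)`, distinct factors -/
lemma mem_of_lt {m a b : ℕ} (hm : 3 ≤ m) (ha : 2 ≤ a) (hab : a < b) :
    a * b + a + b + 1 ∈ lastTerms m (a * b) := by
  have hpair : ∀ c d : ℕ, (List.replicate c d).Pairwise (· ≤ ·) := by
    intro c d
    rw [List.pairwise_replicate]
    right
    exact le_refl d
  refine ⟨(a * b) :: (List.replicate (m - 1) (a * b + a) ++
      (List.replicate (m - 1) (a * b + b) ++ [a * b + a + b + 1])), ⟨?_, ?_, ?_⟩, rfl, ?_⟩
  · rw [List.pairwise_cons]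
    refine ⟨?_, ?_⟩
    · intro x hx
      simp only [List.mem_append, List.mem_replicate, List.mem_singleton] at hx
      rcases hx with h | h | h
      · omega
      · omega
      · omega
    · rw [List.pairwise_append]
      refine ⟨hpair _ _, ?_, ?_⟩
      · rw [List.pairwise_append]
        refine ⟨hpair _ _, by simp, ?_⟩
        intro x hx y hy
        simp only [List.mem_replicate, List.mem_singleton] at hx hy
        omega
      · intro x hx y hy
        simp only [List.mem_append, List.mem_replicate, List.mem_singleton] at hx hy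
        rcases hy with h | h
        · omega
        · omega
  · refine ⟨(a * b + a) * (a * b + b), ?_⟩
    obtain ⟨k, rfl⟩ : ∃ k, m = k + 1 := ⟨m - 1, by omega⟩
    simp only [List.prod_cons, List.prod_append, List.prod_replicate, List.prod_nil,
      Nat.add_sub_cancel]
    rw [mul_pow]
    have e1 : (a * b + a) ^ (k + 1) = (a * b + a) ^ k * (a * b + a) := pow_succ _ _
    have e2 : (a * b + b) ^ (k + 1) = (a * b + b) ^ k * (a * b + b) := pow_succ _ _
    rw [e1, e2]
    ring
  · intro x
    rw [List.count_cons, List.count_append, List.count_append, List.count_replicate,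
      List.count_replicate, List.count_cons, List.count_nil]
    simp only [beq_iff_eq]
    split_ifs <;> omega
  · rw [← List.append_assoc, ← List.cons_append]
    exact List.getLast?_concat

lemma mem_of_eq {m a : ℕ} (hm : 3 ≤ m) (ha : 2 ≤ a) :
    a * a + a + a + 1 ∈ lastTerms m (a * a) := by
  have hpair : ∀ c d : ℕ, (List.replicate c d).Pairwise (· ≤ ·) := by
    intro c d
    rw [List.pairwise_replicate]
    right
    exact le_refl d
  refine ⟨(a * a) :: (List.replicate (m - 2) (a * a + a) ++ [a * a + a + a + 1]),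
    ⟨?_, ?_, ?_⟩, rfl, ?_⟩
  · rw [List.pairwise_cons]
    refine ⟨?_, ?_⟩
    · intro x hx
      simp only [List.mem_append, List.mem_replicate, List.mem_singleton] at hx
      omega
    · rw [List.pairwise_append]
      refine ⟨hpair _ _, by simp, ?_⟩
      intro x hx y hy
      simp only [List.mem_replicate, List.mem_singleton] at hx hy
      omega
  · refine ⟨a * a + a, ?_⟩
    obtain ⟨k, rfl⟩ : ∃ k, m = k + 2 := ⟨m - 2, by omega⟩
    simp only [List.prod_cons, List.prod_append, List.prod_replicate, List.prod_nil,
      Nat.add_sub_cancel]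
    rw [pow_add]
    ring
  · intro x
    rw [List.count_cons, List.count_append, List.count_replicate, List.count_cons,
      List.count_nil]
    simp only [beq_iff_eq]
    split_ifs <;> omega
  · rw [← List.cons_append]
    exact List.getLast?_concat

/-- `9` is a possible last term for `n = 6`. -/
lemma nine_mem {m : ℕ} (hm : 5 ≤ m) (hodd : Odd m) : 9 ∈ lastTerms m 6 := by
  have key : ∀ e f h k : ℕ, 1 ≤ e → e ≤ m - 1 → f ≤ m - 1 → 1 ≤ h → h ≤ m - 1 →
      e + 3 * f = k * m → e + 2 * h = m → 9 ∈ lastTerms m 6 := by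
    intro e f h k he1 he2 hf hh1 hh2 h2 h3
    have hpair : ∀ c d : ℕ, (List.replicate c d).Pairwise (· ≤ ·) := by
      intro c d
      rw [List.pairwise_replicate]
      right
      exact le_refl d
    refine ⟨List.replicate e 6 ++ (List.replicate f 8 ++ List.replicate h 9),
      ⟨?_, ?_, ?_⟩, ?_, ?_⟩
    · rw [List.pairwise_append]
      refine ⟨hpair _ _, ?_, ?_⟩
      · rw [List.pairwise_append]
        refine ⟨hpair _ _, hpair _ _, ?_⟩
        intro x hx y hy
        simp only [List.mem_replicate] at hx hy
        omega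
      · intro x hx y hy
        simp only [List.mem_append, List.mem_replicate] at hx hy
        omega
    · refine ⟨2 ^ k * 3, ?_⟩
      simp only [List.prod_append, List.prod_replicate]
      have e6 : (6 : ℕ) ^ e = 2 ^ e * 3 ^ e := by
        rw [← mul_pow]
        norm_num
      have e8 : (8 : ℕ) ^ f = 2 ^ (3 * f) := by rw [pow_mul]; norm_num
      have e9 : (9 : ℕ) ^ h = 3 ^ (2 * h) := by rw [pow_mul]; norm_num
      have e3 : (3 : ℕ) ^ m = 3 ^ e * 3 ^ (2 * h) := by rw [← pow_add, h3]
      rw [e6, e8, e9, mul_pow, ← pow_mul, ← h2, e3, pow_add]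
      ring
    · intro x
      rw [List.count_append, List.count_append, List.count_replicate, List.count_replicate,
        List.count_replicate]
      simp only [beq_iff_eq]
      split_ifs <;> omega
    · obtain ⟨e', rfl⟩ : ∃ e', e = e' + 1 := ⟨e - 1, by omega⟩
      rw [List.replicate_succ]
      rfl
    · obtain ⟨h', rfl⟩ : ∃ h', h = h' + 1 := ⟨h - 1, by omega⟩
      rw [← List.append_assoc, List.replicate_succ', ← List.append_assoc]
      simp
  obtain ⟨t, ht⟩ := hodd
  have h3 : m % 3 = 0 ∨ m % 3 = 1 ∨ m % 3 = 2 := by omega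
  rcases h3 with h | h | h
  · -- 3 ∣ m, so m ≥ 9
    exact key 3 (m / 3 - 1) ((m - 3) / 2) 1 (by omega) (by omega) (by omega) (by omega)
      (by omega) (by omega) (by omega)
  · exact key 1 ((m - 1) / 3) ((m - 1) / 2) 1 (by omega) (by omega) (by omega) (by omega)
      (by omega) (by omega) (by omega)
  · exact key 1 ((2 * m - 1) / 3) ((m - 1) / 2) 2 (by omega) (by omega) (by omega) (by omega)
      (by omega) (by omega) (by omega)

/-- no `3`-product sequence starts at `4` and ends at `8` -/
lemma eight_not_mem : 8 ∉ lastTerms 3 4 := by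
  rintro ⟨l, ⟨hsort, ⟨R, hR⟩, hcount⟩, hhead, hlast⟩
  have hne : l ≠ [] := by
    rintro rfl
    simp at hhead
  have h4mem : 4 ∈ l := List.mem_of_mem_head? (by rw [hhead]; rfl)
  have hge : ∀ x ∈ l, 4 ≤ x := by
    cases l with
    | nil => exact absurd rfl hne
    | cons y t =>
      simp only [List.head?_cons, Option.some.injEq] at hhead
      subst hhead
      intro x hx
      rw [List.mem_cons] at hx
      rcases hx with h | h
      · omega
      · exact (List.pairwise_cons.mp hsort).1 x h
  have hle : ∀ x ∈ l, x ≤ 8 := by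
    obtain ⟨t, y, rfl⟩ := List.eq_nil_or_concat l |>.resolve_left hne
    rw [List.concat_eq_append] at *
    simp only [List.getLast?_append, List.getLast?_singleton, Option.some_or,
      Option.some.injEq] at hlast
    subst hlast
    intro x hx
    rw [List.mem_append] at hx
    rcases hx with h | h
    · exact (List.pairwise_append.mp hsort).2.2 x h 8 (by simp)
    · simp at h
      omega
  have hpos : ∀ x ∈ l, x ≠ 0 := fun x hx => by have := hge x hx; omega
  have hfac : ∀ p : ℕ, (l.prod).factorization p = (l.map (fun x => x.factorization p)).sum := by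
    intro p
    clear hne h4mem hsort hcount hhead hlast hR hge hle
    induction l with
    | nil => simp
    | cons a t ih =>
      have ha : a ≠ 0 := hpos a (by simp)
      have ht : t.prod ≠ 0 := by
        rw [Ne, List.prod_eq_zero_iff]
        intro h0
        exact hpos 0 (by simp [h0]) rfl
      rw [List.prod_cons, Nat.factorization_mul ha ht, List.map_cons, List.sum_cons,
        Finsupp.add_apply, ih (fun x hx => hpos x (by simp [hx]))]
  have hsum : ∀ f : ℕ → ℕ, (l.map f).sum = ∑ x ∈ Finset.Icc 4 8, l.count x * f x := by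
    intro f
    rw [Finset.sum_list_map_count]
    simp only [smul_eq_mul]
    apply Finset.sum_subset
    · intro x hx
      rw [List.mem_toFinset] at hx
      rw [Finset.mem_Icc]
      exact ⟨hge x hx, hle x hx⟩
    · intro x _ hx
      rw [List.mem_toFinset] at hx
      rw [List.count_eq_zero_of_not_mem hx]
      simp
  have hIcc : Finset.Icc 4 8 = ({4, 5, 6, 7, 8} : Finset ℕ) := by decide
  have hcube : ∀ p : ℕ, 3 ∣ (l.prod).factorization p := by
    intro p
    rw [hR, Nat.factorization_pow]
    exact ⟨R.factorization p, by simp⟩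
  have f42 : (4 : ℕ).factorization 2 = 2 := by
    rw [show (4 : ℕ) = 2 ^ 2 by norm_num, Nat.factorization_pow]
    simp [Nat.Prime.factorization_self Nat.prime_two]
  have f82 : (8 : ℕ).factorization 2 = 3 := by
    rw [show (8 : ℕ) = 2 ^ 3 by norm_num, Nat.factorization_pow]
    simp [Nat.Prime.factorization_self Nat.prime_two]
  have f52 : (5 : ℕ).factorization 2 = 0 := Nat.factorization_eq_zero_of_not_dvd (by norm_num)
  have f72 : (7 : ℕ).factorization 2 = 0 := Nat.factorization_eq_zero_of_not_dvd (by norm_num)
  have f43 : (4 : ℕ).factorization 3 = 0 := Nat.factorization_eq_zero_of_not_dvd (by norm_num)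
  have f53 : (5 : ℕ).factorization 3 = 0 := Nat.factorization_eq_zero_of_not_dvd (by norm_num)
  have f73 : (7 : ℕ).factorization 3 = 0 := Nat.factorization_eq_zero_of_not_dvd (by norm_num)
  have f83 : (8 : ℕ).factorization 3 = 0 := Nat.factorization_eq_zero_of_not_dvd (by norm_num)
  have f63 : (6 : ℕ).factorization 3 = 1 := by
    rw [show (6 : ℕ) = 2 * 3 by norm_num, Nat.factorization_mul (by norm_num) (by norm_num)]
    simp [Nat.Prime.factorization_self Nat.prime_three,
      Nat.factorization_eq_zero_of_not_dvd (show ¬ 3 ∣ 2 by norm_num)]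
  have h3 := hcube 3
  rw [hfac, hsum, hIcc] at h3
  simp [f43, f53, f73, f83, f63] at h3
  have h2 := hcube 2
  rw [hfac, hsum, hIcc] at h2
  simp [f42, f52, f72, f82] at h2
  have c6 := hcount 6
  have c4 := hcount 4
  have c4' : 1 ≤ l.count 4 := List.count_pos_iff.mpr h4mem
  have : l.count 6 = 0 := by omega
  rw [this] at h2
  omega

/-- For every odd `m ≥ 3` and every `n`, if `g_m(n) = 2n` then `n = 0`, or `n` is prime, or `n = 4`
and `m ≥ 5`, or `(m, n) = (3, 6)`. -/
theorem result : ∀ m : ℕ, Odd m → 3 ≤ m → ∀ n : ℕ, g m n = 2 * n →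
    n = 0 ∨ n.Prime ∨ (n = 4 ∧ 5 ≤ m) ∨ (m = 3 ∧ n = 6) := by
  intro m hodd hm n hg
  by_contra hcon
  push Not at hcon
  obtain ⟨hn0, hnp, hn4, hn6⟩ := hcon
  have hupper : ∀ s ∈ lastTerms m n, 2 * n ≤ s := by
    intro s hs
    rw [← hg]
    exact Nat.sInf_le hs
  by_cases hn1 : n = 1
  · subst hn1
    have := hupper 1 (one_mem hm)
    omega
  -- `n` is composite
  obtain ⟨a, b, ha, hab, rfl⟩ : ∃ a b : ℕ, 2 ≤ a ∧ a ≤ b ∧ n = a * b := by
    refine ⟨n.minFac, n / n.minFac, (Nat.minFac_prime hn1).two_le, ?_, ?_⟩
    · exact Nat.minFac_le_div (Nat.pos_of_ne_zero hn0) hnp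
    · exact (Nat.mul_div_cancel' (Nat.minFac_dvd n)).symm
  have hlast : a * b + a + b + 1 ∈ lastTerms m (a * b) := by
    rcases Nat.lt_or_ge a b with h | h
    · exact mem_of_lt hm ha h
    · have : a = b := le_antisymm hab h
      subst this
      exact mem_of_eq hm ha
  have h1 := hupper _ hlast
  have h2 : a * b ≤ a + b + 1 := by omega
  have ha2 : a = 2 := by
    by_contra hne
    have : 3 ≤ a := by omega
    nlinarith
  subst ha2
  have hb : b ≤ 3 := by omega
  have hb' : b = 2 ∨ b = 3 := by omega
  rcases hb' with rfl | rfl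
  · -- `n = 4`
    have hm3 : m = 3 := by
      by_contra hne
      have : m < 5 := by
        by_contra h5
        exact absurd (hn4 rfl) (by omega)
      obtain ⟨t, ht⟩ := hodd
      omega
    subst hm3
    apply eight_not_mem
    have hmem : sInf (lastTerms 3 4) ∈ lastTerms 3 4 := Nat.sInf_mem ⟨_, hlast⟩
    have : sInf (lastTerms 3 4) = 8 := hg
    rw [this] at hmem
    exact hmem
  · -- `n = 6`
    have hm5 : 5 ≤ m := by
      by_contra h5
      obtain ⟨t, ht⟩ := hodd
      have : m = 3 := by omega
      exact hn6 this rfl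
    have := hupper 9 (nine_mem hm5 hodd)
    omega

end Pool.Agent.Results.MP_c9219e_nt.OddGraham
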